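import Pool.Agent.H72.OWN.Cfl
import Pool.Agent.H62.OWN.LabI
import Pool.Agent.H35.LBK.Lbk
import Pool.Agent.H40.MIC.Grd2

/-!
# Charts of the records from closed velocity labels

`cho_fam`, `cho_ch`: affine closed labels of the velocities of the coordinates of a chain give a
chain of two-sided labels of degree one at all finer windows. `cho_of`: the class form.
`cho_grid`: all the windows of a grid, one event.
-/

set_option autoImplicit false

namespace Pool.OWN98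

open Finset MvPolynomial
open Pool.Agent.H49.Ent Pool.Agent.H32.Dense Pool.STK Pool.KA Pool.KSAT Pool.K2S Pool.PB Pool.GEN
open Pool.S6C
open Pool.OWN72
open Pool.MIC6 (dpt dpt_near)
open Pool.JVE (DpI cI cI_pos lab_grd)
open Pool.STAT.CLO (up up_ge up_le)

variable {m J : ℕ}

/-- The derivatives of affine polynomials are constants. -/
theorem pd_const {σ : Type*} {G : MvPolynomial σ ℝ} (h : G.totalDegree ≤ 1) (o : σ)
    (b b' : σ → ℝ) : eval b (pderiv o G) = eval b' (pderiv o G) := by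
  classical
  have h1 : (pderiv o G).totalDegree = 0 := by
    refine Nat.le_zero.1 (Finset.sup_le fun s hs => ?_)
    rw [mem_support_iff, coeff_pderiv] at hs
    have h3 : s + Finsupp.single o 1 ∈ G.support := by
      rw [mem_support_iff]
      exact left_ne_zero_of_mul hs
    have h4 := le_totalDegree h3
    have h5 : ((s + Finsupp.single o 1).sum fun _ e => e) = (s.sum fun _ e => e) + 1 := by
      rw [Finsupp.sum_add_index' (fun _ => rfl) (fun _ _ _ => rfl), Finsupp.sum_single_index rfl]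
    omega
  rw [totalDegree_eq_zero_iff_eq_C.1 h1, eval_C, eval_C]

/-- Smaller precision. -/
theorem _root_.Pool.OWN72.ClA.mono {F : Fam m J} {A : F.Ω → Prop} {I : Finset (Fin m)} {v : Fin m}
    {w e M M' : ℕ} {a : PtT F → Fin m → ℝ} {c : PtT F → ℝ} (h : ClA F A I v w e M a c)
    (hM : M' ≤ M) : ClA F A I v w e M' a c := by
  refine ⟨fun ω hω => ?_, h.ca, h.cc⟩
  obtain ⟨h1, h2, h3⟩ := h.dp ω hω
  exact ⟨h1, h2, h3.trans (inv_mono hM)⟩

theorem cI_one (m : ℕ) : 1 ≤ cI m := by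
  unfold cI
  have h1 : (1 : ℝ) ≤ (2 * ((2 * m + 2 : ℕ) : ℝ) + 1) ^ (m + 1) := by
    refine one_le_pow₀ ?_
    have : (0 : ℝ) ≤ ((2 * m + 2 : ℕ) : ℝ) := Nat.cast_nonneg _
    linarith
  have h2 : (1 : ℝ) ≤ 2 * ((m + 4 : ℕ) : ℝ) + 1 := by
    have : (0 : ℝ) ≤ ((m + 4 : ℕ) : ℝ) := Nat.cast_nonneg _
    linarith
  nlinarith

/-- **Position labels from closed velocity labels**, all the coordinates of a chain. -/
theorem cho_fam {F : Fam m J} {A : F.Ω → Prop} {c : ℕ → Fin m} {W e : ℕ} {M P : ℕ → ℕ}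
    {a : ℕ → PtT F → Fin m → ℝ} {cc : ℕ → PtT F → ℝ} (hW : W ≤ J) : ∀ n : ℕ,
    (∀ l, 1 ≤ l → l < n → ClA F A ((range l).image c) (c l) W e (M l) (a l) (cc l)) →
    (∀ l, 1 ≤ l → l < n → W + M l + e + m + 3 ≤ J) →
    (∀ l, 1 ≤ l → l < n → P l + m + 3 ≤ W + M l) →
    ∃ B : F.Ω → Prop, Sub B A ∧ Pe F.p A ≤ cI m ^ n * Pe F.p B ∧
      ∀ l, 1 ≤ l → l < n → ∀ ρ, Lb F ((range l).image c) (c l) 1 (e + 1) J W ρ (P l) B := by
  intro n
  induction n with
  | zero =>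
    intro _ _ _
    exact ⟨A, fun _ h => h, by rw [pow_zero, one_mul], fun l _ hl => absurd hl (Nat.not_lt_zero l)⟩
  | succ n ih =>
    intro h1 h2 h3
    obtain ⟨B, hB, hP, hL⟩ := ih (fun l a b => h1 l a (by omega)) (fun l a b => h2 l a (by omega))
      (fun l a b => h3 l a (by omega))
    rcases Nat.eq_zero_or_pos n with hn | hn
    · refine ⟨B, hB, ?_, fun l a b => absurd b (by omega)⟩
      refine hP.trans (mul_le_mul_of_nonneg_right ?_ (Pe_nonneg F.isLaw B))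
      exact pow_le_pow_right₀ (cI_one m) (Nat.le_succ n)
    · obtain ⟨h1', h1a, h1c⟩ := (h1 n hn (Nat.lt_succ_self n)).sub hB
      choose! fa hfa using h1a
      obtain ⟨B', hB', hP', hL'⟩ := lab_grd (F := F) (A := B) (I := (range n).image c) (v := c n)
        (av := a n) (cv := cc n) (th := fun s k => fa k s) (W := W) (M := M n) (e := e) (P := P n)
        hW h1' (fun ω hω k hk => by
          rw [← hfa k hk ω hω, sub_self, abs_zero]
          positivity) (h2 n hn (Nat.lt_succ_self n)) (h3 n hn (Nat.lt_succ_self n))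
      refine ⟨B', fun ω hω => hB ω (hB' ω hω), ?_, fun l a b ρ => ?_⟩
      · calc Pe F.p A ≤ cI m ^ n * Pe F.p B := hP
          _ ≤ cI m ^ n * (cI m * Pe F.p B') :=
            mul_le_mul_of_nonneg_left hP' (pow_nonneg (cI_pos m).le n)
          _ = cI m ^ (n + 1) * Pe F.p B' := by ring
      · rcases Nat.lt_or_ge l n with hl | hl
        · obtain ⟨V, z, z', G, h⟩ := hL l a hl ρ
          exact ⟨V, z, z', G, h.sub hB'⟩
        · have : l = n := by omega
          rw [this]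
          exact hL' ρ

/-- The relative time in a window is at most one, with room for the last digit. -/
theorem rt_le (F : Fam m J) {w : ℕ} (hw : w ≤ J) (ω : F.Ω) :
    Pool.PB.Trl.rt F w ω / 2 ^ w ≤ 1 / 2 ^ w - 1 / 2 ^ J := by
  have h1 := Nat.mod_lt (F.T ω) (y := 2 ^ (J - w)) (by positivity)
  have h2 : ((F.T ω % 2 ^ (J - w) : ℕ) : ℝ) + 1 ≤ ((2 ^ (J - w) : ℕ) : ℝ) := by
    exact_mod_cast h1
  have hJ : (2 : ℝ) ^ J = 2 ^ (J - w) * 2 ^ w := by rw [← pow_add, Nat.sub_add_cancel hw]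
  unfold Pool.PB.Trl.rt
  have p1 : (0 : ℝ) < 2 ^ (J - w) := by positivity
  have p2 : (0 : ℝ) < 2 ^ w := by positivity
  rw [hJ]
  push_cast at h2 ⊢
  have e1 : (1 : ℝ) / 2 ^ w - 1 / (2 ^ (J - w) * 2 ^ w) = (2 ^ (J - w) - 1) / 2 ^ (J - w) / 2 ^ w := by
    field_simp
  rw [e1]
  refine div_le_div_of_nonneg_right (div_le_div_of_nonneg_right ?_ p1.le) p2.le
  linarith

/-- **The chart of a chain** at a finer window, from affine closed labels. -/
theorem cho_ch {F : Fam m J} {B : F.Ω → Prop} {c : ℕ → Fin m} {n W e w' : ℕ} {P : ℕ → ℕ}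
    (hL : ∀ l, 1 ≤ l → l < n → Lb F ((range l).image c) (c l) 1 e J W 0 (P l) B)
    (hW : W ≤ w') (hJ : w' ≤ J) :
    ∃ (G : PtT F → ℕ → MvPolynomial (Option (Fin m)) ℝ)
      (H : LnT F → ℕ → MvPolynomial (Option (Fin m)) ℝ),
      ChOK F c n (fun _ => 1) w' w' e (fun l => if l = 0 then w' else P l) B G H := by
  classical
  have h' : ∀ l, 1 ≤ l → l < n → Lb F ((range l).image c) (c l) 1 e J w' 0 (P l) B :=
    fun l a b => (hL l a b).win hW hJ
  choose V z z' G hG using h'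
  have hdep : ∀ i (hi : 1 ≤ i) (hi' : i < n) v, DepC c i (G i hi hi' v) := by
    intro i hi hi' v b b' hn hb
    refine (hG i hi hi').dep _ b b' hn fun k hk => ?_
    obtain ⟨l, hl, rfl⟩ := mem_image.1 hk
    exact hb l (mem_range.1 hl)
  refine ⟨fun y i => if hi : 1 ≤ i ∧ i < n then G i hi.1 hi.2 (z i hi.1 hi.2 y) else
      if i = 0 then C (dpt y (some (c 0))) else 0,
    fun s i => if hi : 1 ≤ i ∧ i < n then G i hi.1 hi.2 (z' i hi.1 hi.2 s) else
      if i = 0 then C (s.1.1 (c 0) + (s.2.2 : ℝ) / 2 ^ w' * s.1.2 (c 0)) else 0,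
    fun y i => ?_, fun s i => ?_, fun y i => ?_, fun s i => ?_, fun ω hω i hi => ?_,
    fun ω hω i hi b _ => ?_, fun ω hω i hi b hb l hl => ?_⟩
  · split_ifs with hi
    · exact (hG i hi.1 hi.2).deg _
    · rw [totalDegree_C]
      exact Nat.zero_le _
    · rw [totalDegree_zero]
      exact Nat.zero_le _
  · split_ifs with hi
    · exact (hG i hi.1 hi.2).deg _
    · rw [totalDegree_C]
      exact Nat.zero_le _
    · rw [totalDegree_zero]
      exact Nat.zero_le _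
  · split_ifs with hi
    · exact hdep i hi.1 hi.2 _
    · intro b b' _ _
      rw [eval_C, eval_C]
    · intro b b' _ _
      rw [map_zero, map_zero]
  · split_ifs with hi
    · exact hdep i hi.1 hi.2 _
    · intro b b' _ _
      rw [eval_C, eval_C]
    · intro b b' _ _
      rw [map_zero, map_zero]
  · rcases Nat.eq_zero_or_pos i with h0 | h0
    · subst h0
      rw [dif_neg (by omega), if_pos rfl, if_pos rfl, eval_C]
      have h1 := dpt_near F ω (some (c 0))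
      rw [abs_sub_comm] at h1
      exact h1.trans (inv_mono hJ)
    · rw [dif_pos ⟨h0, hi⟩, if_neg (by omega), (hG i h0 hi).cls ω hω]
      exact (hG i h0 hi).pos ω hω
  · rcases Nat.eq_zero_or_pos i with h0 | h0
    · subst h0
      rw [dif_neg (by omega), if_pos rfl, dif_neg (by omega), if_pos rfl, if_pos rfl, eval_C,
        eval_C]
      have h1 := dpt_near F ω (some (c 0))
      have h2 := rt_le F hJ ω
      have h3 := (Pool.PB.Trl.rt_mem F w' ω).1
      have h4 := Pool.PB.Trl.t_rt F hJ ω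
      have h5 := F.dir ω (c 0)
      have e1 : bt F ω (some (c 0)) = F.u ω (c 0) + F.t ω * F.d ω (c 0) := rfl
      have e2 : dpt (ptr F J ω) (some (c 0)) - ((slam F w' ω).1.1 (c 0) +
          ((slam F w' ω).2.2 : ℝ) / 2 ^ w' * (slam F w' ω).1.2 (c 0)) =
          (dpt (ptr F J ω) (some (c 0)) - bt F ω (some (c 0))) +
            Pool.PB.Trl.rt F w' ω / 2 ^ w' * F.d ω (c 0) := by
        rw [e1, h4]
        show _ - (F.u ω (c 0) + _ * F.d ω (c 0)) = _
        ring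
      rw [e2]
      have h6 : |Pool.PB.Trl.rt F w' ω / 2 ^ w' * F.d ω (c 0)| ≤ 1 / 2 ^ w' - 1 / 2 ^ J := by
        rw [abs_mul, abs_of_nonneg (by positivity)]
        have := mul_le_mul_of_nonneg_left h5
          (show 0 ≤ Pool.PB.Trl.rt F w' ω / 2 ^ w' by positivity)
        linarith
      refine (abs_add_le _ _).trans ?_
      linarith
    · rw [dif_pos ⟨h0, hi⟩, dif_pos ⟨h0, hi⟩, (hG i h0 hi).cls ω hω, sub_self, abs_zero]
      positivity
  · have h0 : 1 ≤ i := by omega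
    rw [dif_pos ⟨h0, hi⟩, (hG i h0 hi).cls ω hω,
      pd_const ((hG i h0 hi).deg _) (some (c l)) b (bt F ω)]
    refine ((hG i h0 hi).lip ω hω (bt F ω) (fun o => ?_) _).trans
      (pow_le_pow_right₀ (by norm_num) (Nat.le_add_right _ _))
    rw [sub_self, abs_zero]
    positivity

/-- **Charts of the records**, for a class: affine closed labels of the velocities, with the numbers
`N l`, give charts with the sides `N l`, at all finer windows. -/
theorem cho_of {S : PCl m} {c : ℕ → Fin m} {n : ℕ} {w δ : ℝ} {N : ℕ → ℝ} (hw0 : 0 ≤ w)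
    (hw1 : w < 1) (hδ : 0 < δ)
    (hA : ∀ l, 1 ≤ l → l < n → HasA S ((range l).image c) (c l) w (N l))
    (hNδ : ∀ l, 1 ≤ l → l < n → δ ≤ N l) (hNw : ∀ l, 1 ≤ l → l < n → w ≤ N l)
    (hN1 : ∀ l, 1 ≤ l → l < n → N l ≤ 1) {x : ℝ} (hx : 0 < x) :
    Bas S fun J F A => ∃ B : F.Ω → Prop, Sub B A ∧ Pe F.p A ≤ cI m ^ n * Pe F.p B ∧
      ∀ w' : ℕ, ⌊w * J⌋₊ ≤ w' → w' ≤ J → ∃ (g : ℕ → ℕ)
        (G : PtT F → ℕ → MvPolynomial (Option (Fin m)) ℝ)
        (H : LnT F → ℕ → MvPolynomial (Option (Fin m)) ℝ),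
        ChOK F c n (fun _ => 1) w' w' ⌊x * J⌋₊ g B G H ∧ g 0 = w' ∧
        ∀ l, 1 ≤ l → l < n → |(g l : ℝ) - N l * J| ≤ x * J := by
  obtain ⟨y, hy⟩ : ∃ y, y = min (x / 4) (min ((1 - w) / 4) (δ / 4)) := ⟨_, rfl⟩
  have hy0 : 0 < y := by
    rw [hy]
    exact lt_min (by linarith) (lt_min (by linarith) (by linarith))
  have hyx : 4 * y ≤ x := by
    have : y ≤ x / 4 := by rw [hy]; exact min_le_left _ _
    linarith
  have hyw : 4 * y ≤ 1 - w := by
    have : y ≤ (1 - w) / 4 := by rw [hy]; exact (min_le_right _ _).trans (min_le_left _ _)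
    linarith
  have hyδ : 4 * y ≤ δ := by
    have : y ≤ δ / 4 := by rw [hy]; exact (min_le_right _ _).trans (min_le_right _ _)
    linarith
  obtain ⟨J₁, hJ₁⟩ := exists_nat_ge ((2 * (m : ℝ) + 10) / y)
  have hb : Bas S fun J F A => ∀ l < n, 1 ≤ l → ∃ (a : PtT F → Fin m → ℝ) (cc : PtT F → ℝ),
      ClA F A ((range l).image c) (c l) ⌊w * J⌋₊ ⌊y * J⌋₊ ⌊(N l - w - y) * J⌋₊ a cc := by
    refine Bas.all n fun l hl => ?_
    rcases Nat.eq_zero_or_pos l with h0 | h0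
    · exact ⟨1, one_pos, 0, fun _ _ _ _ _ h => absurd h (by omega)⟩
    · obtain ⟨τ, hτ, J₂, h⟩ := hA l h0 hl y hy0
      exact ⟨τ, hτ, J₂, fun J hJ F A hA _ => h J hJ F A hA⟩
  refine Bas.mono J₁ hb ?_
  intro J hJ F A h
  have hJr : (J₁ : ℝ) ≤ J := by exact_mod_cast hJ
  have hJ0 : (0 : ℝ) ≤ J := Nat.cast_nonneg J
  have hm0 : (0 : ℝ) ≤ m := Nat.cast_nonneg m
  have hyJ : 2 * (m : ℝ) + 10 ≤ y * J := by
    have h1 := hJ₁.trans hJr
    rw [div_le_iff₀ hy0] at h1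
    linarith
  choose! a cc hcl using h
  obtain ⟨W, hW⟩ : ∃ W, W = ⌊w * (J : ℝ)⌋₊ := ⟨_, rfl⟩
  obtain ⟨e, he⟩ : ∃ e, e = ⌊y * (J : ℝ)⌋₊ := ⟨_, rfl⟩
  have hWle : (W : ℝ) ≤ w * J := by rw [hW]; exact Nat.floor_le (by positivity)
  have hWge : w * (J : ℝ) - 1 < W := by rw [hW]; exact Nat.sub_one_lt_floor _
  have hele : (e : ℝ) ≤ y * J := by rw [he]; exact Nat.floor_le (by positivity)
  have hw4 : 4 * (y * J) ≤ (1 - w) * J := by
    have := mul_le_mul_of_nonneg_right hyw hJ0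
    linarith
  have hx4 : 4 * (y * J) ≤ x * J := by
    have := mul_le_mul_of_nonneg_right hyx hJ0
    linarith
  have hδ4 : 4 * (y * J) ≤ δ * J := by
    have := mul_le_mul_of_nonneg_right hyδ hJ0
    linarith
  have hWeJ : W + e + m + 3 ≤ J := by
    have : ((W + e + m + 3 : ℕ) : ℝ) ≤ J := by
      push_cast
      linarith
    exact_mod_cast this
  have hWJ : W ≤ J := by omega
  have heJ : e + 1 ≤ ⌊x * (J : ℝ)⌋₊ := by
    have h2 : x * (J : ℝ) - 1 < ⌊x * (J : ℝ)⌋₊ := Nat.sub_one_lt_floor _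
    have : ((e + 1 : ℕ) : ℝ) ≤ (⌊x * (J : ℝ)⌋₊ : ℕ) := by
      push_cast
      linarith
    exact_mod_cast this
  obtain ⟨M, hM⟩ : ∃ M : ℕ → ℕ, M = fun l => min ⌊(N l - w - y) * (J : ℝ)⌋₊ (J - W - e - m - 3) :=
    ⟨_, rfl⟩
  have hMle : ∀ l, M l ≤ J - W - e - m - 3 := fun l => by rw [hM]; exact min_le_right _ _
  have hMge : ∀ l, 1 ≤ l → l < n → (N l - w - y) * J - y * J - m - 4 ≤ (M l : ℝ) := by
    intro l h1 h2
    rw [hM]
    show _ ≤ ((min _ _ : ℕ) : ℝ)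
    rw [Nat.cast_min]
    refine le_min ?_ ?_
    · have h3 : (N l - w - y) * (J : ℝ) - 1 < ⌊(N l - w - y) * (J : ℝ)⌋₊ := Nat.sub_one_lt_floor _
      linarith
    · have h3 : ((J - W - e - m - 3 : ℕ) : ℝ) = J - W - e - m - 3 := by
        rw [Nat.cast_sub (by omega), Nat.cast_sub (by omega), Nat.cast_sub (by omega),
          Nat.cast_sub (by omega)]
        push_cast
        ring
      rw [h3]
      have h4 := mul_le_mul_of_nonneg_right (hN1 l h1 h2) hJ0
      have e1 : (N l - w - y) * (J : ℝ) = N l * J - w * J - y * J := by ring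
      linarith
  have hMup : ∀ l, 1 ≤ l → l < n → (M l : ℝ) ≤ (N l - w) * J := by
    intro l h1 h2
    have h3 : (M l : ℝ) ≤ (⌊(N l - w - y) * (J : ℝ)⌋₊ : ℕ) := by
      rw [hM]
      exact_mod_cast min_le_left _ _
    have h4 : (⌊(N l - w - y) * (J : ℝ)⌋₊ : ℕ) ≤ ⌊(N l - w) * (J : ℝ)⌋₊ :=
      Nat.floor_le_floor (mul_le_mul_of_nonneg_right (by linarith) hJ0)
    have h5 : ((⌊(N l - w) * (J : ℝ)⌋₊ : ℕ) : ℝ) ≤ (N l - w) * J :=
      Nat.floor_le (mul_nonneg (by linarith [hNw l h1 h2]) hJ0)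
    have h4' : ((⌊(N l - w - y) * (J : ℝ)⌋₊ : ℕ) : ℝ) ≤ (⌊(N l - w) * (J : ℝ)⌋₊ : ℕ) := by
      exact_mod_cast h4
    linarith
  have hbig : ∀ l, 1 ≤ l → l < n → m + 3 ≤ W + M l := by
    intro l h1 h2
    have h3 := hMge l h1 h2
    have h4 := mul_le_mul_of_nonneg_right (hNδ l h1 h2) hJ0
    have e1 : (N l - w - y) * (J : ℝ) = N l * J - w * J - y * J := by ring
    have : ((m + 3 : ℕ) : ℝ) ≤ ((W + M l : ℕ) : ℝ) := by
      push_cast
      linarith
    exact_mod_cast this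
  obtain ⟨B, hB, hP, hL⟩ := cho_fam (F := F) (A := A) (c := c) (W := W) (e := e) (M := M)
    (P := fun l => W + M l - (m + 3)) (a := a) (cc := cc) hWJ n
    (fun l h1 h2 => by
      have h3 := hcl l h2 h1
      rw [← hW, ← he] at h3
      refine h3.mono ?_
      rw [hM]
      exact min_le_left _ _)
    (fun l h1 h2 => by
      have := hMle l
      omega)
    (fun l h1 h2 => by
      have := hbig l h1 h2
      show W + M l - (m + 3) + m + 3 ≤ W + M l
      omega)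
  refine ⟨B, hB, hP, fun w' hw' hw'J => ?_⟩
  obtain ⟨G, H, hG⟩ := cho_ch (F := F) (B := B) (c := c) (n := n) (W := W) (e := e + 1) (w' := w')
    (P := fun l => W + M l - (m + 3)) (fun l h1 h2 => hL l h1 h2 0) (by rw [hW]; exact hw') hw'J
  refine ⟨_, G, H, hG.mono le_rfl (fun _ => le_rfl) le_rfl heJ, if_pos rfl, fun l h1 h2 => ?_⟩
  rw [if_neg (by omega)]
  have h3 := hbig l h1 h2
  have h4 := hMge l h1 h2
  have h5 := hMup l h1 h2
  have e1 : (N l - w - y) * (J : ℝ) = N l * J - w * J - y * J := by ring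
  have e2 : (N l - w) * (J : ℝ) = N l * J - w * J := by ring
  rw [Nat.cast_sub h3]
  push_cast
  rw [abs_le]
  constructor
  · linarith
  · linarith

/-- Finitely many hereditary statements which hold on large subevents hold on one of them. -/
theorem seq_ev {S : PCl m} {C : ℝ} (hC : 1 ≤ C) {Φ : ℕ → Stat m}
    (hΦ : ∀ (i J : ℕ) (F : Fam m J) (A B : F.Ω → Prop), Sub B A → Φ i J F A → Φ i J F B) :
    ∀ M : ℕ, (∀ j < M, Bas S fun J F A => ∃ B : F.Ω → Prop, Sub B A ∧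
      Pe F.p A ≤ C * Pe F.p B ∧ Φ j J F B) →
    Bas S fun J F A => ∃ B : F.Ω → Prop, Sub B A ∧ Pe F.p A ≤ C ^ M * Pe F.p B ∧
      ∀ j < M, Φ j J F B := by
  intro M
  induction M with
  | zero =>
    intro _
    exact ⟨1, one_pos, 0, fun J _ F A _ => ⟨A, fun _ h => h, by rw [pow_zero, one_mul],
      fun j hj => absurd hj (Nat.not_lt_zero j)⟩⟩
  | succ M ih =>
    intro h
    have hC0 : 0 < C ^ M := by positivity
    refine Bas.mono 0 ((ih fun j hj => h j (by omega)).and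
      (Pool.LBK.Bas.ev (h M (Nat.lt_succ_self M)) (inv_pos.2 hC0))) ?_
    rintro J - F A ⟨⟨B, hB, hP, h1⟩, h2⟩
    obtain ⟨B', hB', hP', h3⟩ := h2 B hB (by rw [inv_mul_le_iff₀ hC0]; exact hP)
    refine ⟨B', fun ω hω => hB ω (hB' ω hω), ?_, fun j hj => ?_⟩
    · calc Pe F.p A ≤ C ^ M * Pe F.p B := hP
        _ ≤ C ^ M * (C * Pe F.p B') := mul_le_mul_of_nonneg_left hP' hC0.le
        _ = C ^ (M + 1) * Pe F.p B' := by ring
    · rcases Nat.lt_or_ge j M with hj' | hj'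
      · exact hΦ j J F B B' hB' (h1 j hj')
      · have : j = M := by omega
        rw [this]
        exact h3

/-- **Charts of the records, at all the windows of a grid**, on one event: the charts `G'`, `H'`
which `bal_cls` asks for. -/
theorem cho_grid {S : PCl m} {c : ℕ → Fin m} {n M : ℕ} {ϖ ζ δ : ℝ} {b : ℕ → ℕ → ℝ} (hϖ : 0 ≤ ϖ)
    (hζ : 0 < ζ) (hwin : ϖ + (M + 1) * ζ ≤ 1) (hδ : 0 < δ)
    (hA : ∀ j ≤ M, ∀ l, 1 ≤ l → l < n → HasA S ((range l).image c) (c l) (ϖ + j * ζ) (b j l))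
    (hb0 : ∀ j ≤ M, b j 0 = ϖ + j * ζ)
    (hbδ : ∀ j ≤ M, ∀ l, 1 ≤ l → l < n → δ ≤ b j l)
    (hbw : ∀ j ≤ M, ∀ l, 1 ≤ l → l < n → ϖ + j * ζ ≤ b j l)
    (hb1 : ∀ j ≤ M, ∀ l, 1 ≤ l → l < n → b j l ≤ 1) {x : ℝ} (hx : 0 < x) :
    Bas S fun J F A => ∃ (B : F.Ω → Prop) (g' : ℕ → ℕ → ℕ)
      (G' : ℕ → PtT F → ℕ → MvPolynomial (Option (Fin m)) ℝ)
      (H' : ℕ → LnT F → ℕ → MvPolynomial (Option (Fin m)) ℝ),
      Sub B A ∧ Pe F.p A ≤ (cI m ^ n) ^ (M + 1) * Pe F.p B ∧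
      (∀ j ≤ M, ChOK F c n (fun _ => 1) (up ϖ J + j * up ζ J) (up ϖ J + j * up ζ J) ⌊x * J⌋₊
        (g' j) B (G' j) (H' j)) ∧
      ∀ j ≤ M, ∀ l < n, |(g' j l : ℝ) - b j l * J| ≤ x * J := by
  have hM0 : (0 : ℝ) ≤ M := Nat.cast_nonneg M
  have hlt : ∀ j ≤ M, ϖ + j * ζ < 1 := by
    intro j hj
    have : (j : ℝ) ≤ M := by exact_mod_cast hj
    nlinarith
  obtain ⟨J₁, hJ₁⟩ := exists_nat_ge (((M : ℝ) + 2) / ζ)
  obtain ⟨J₂, hJ₂⟩ := exists_nat_ge (((M : ℝ) + 2) / x)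
  obtain ⟨Φ, hΦ⟩ : ∃ Φ : ℕ → Stat m, Φ = fun j J F B => max J₁ J₂ ≤ J → ∃ (g : ℕ → ℕ)
      (G : PtT F → ℕ → MvPolynomial (Option (Fin m)) ℝ)
      (H : LnT F → ℕ → MvPolynomial (Option (Fin m)) ℝ),
      ChOK F c n (fun _ => 1) (up ϖ J + j * up ζ J) (up ϖ J + j * up ζ J) ⌊x * J⌋₊ g B G H ∧
      ∀ l < n, |(g l : ℝ) - b j l * J| ≤ x * J := ⟨_, rfl⟩
  have key := seq_ev (S := S) (C := cI m ^ n) (one_le_pow₀ (cI_one m)) (Φ := Φ)
    (fun i J F A B hB h => by
      rw [hΦ] at h ⊢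
      intro hJ
      obtain ⟨g, G, H, h1, h2⟩ := h hJ
      exact ⟨g, G, H, h1.sub hB, h2⟩) (M + 1) (fun j hj => by
      have hj' : j ≤ M := by omega
      have hjr : (j : ℝ) ≤ M := by exact_mod_cast hj'
      refine Bas.mono 0 (cho_of (S := S) (c := c) (n := n) (w := ϖ + j * ζ) (δ := δ) (N := b j)
        (by positivity) (hlt j hj') hδ (hA j hj') (hbδ j hj') (hbw j hj') (hb1 j hj') hx) ?_
      rintro J - F A ⟨B, h1, h2, h3⟩
      refine ⟨B, h1, h2, ?_⟩
      rw [hΦ]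
      intro hJ
      have hJ0 : (0 : ℝ) ≤ J := Nat.cast_nonneg J
      have j1 : (J₁ : ℝ) ≤ J := by exact_mod_cast (le_max_left _ _).trans hJ
      have j2 : (J₂ : ℝ) ≤ J := by exact_mod_cast (le_max_right _ _).trans hJ
      have hζJ : (M : ℝ) + 2 ≤ J * ζ := by
        have := hJ₁.trans j1
        rwa [div_le_iff₀ hζ] at this
      have hxJ : (M : ℝ) + 2 ≤ J * x := by
        have := hJ₂.trans j2
        rwa [div_le_iff₀ hx] at this
      have u1 := up_ge ϖ J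
      have u2 := up_le hϖ J
      have u3 := up_ge ζ J
      have u4 := up_le hζ.le J
      have k1 : (j : ℝ) * (ζ * J) ≤ j * up ζ J := mul_le_mul_of_nonneg_left u3 (Nat.cast_nonneg j)
      have k2 : (j : ℝ) * up ζ J ≤ j * (ζ * J + 1) :=
        mul_le_mul_of_nonneg_left u4 (Nat.cast_nonneg j)
      have hwr1 : (ϖ + j * ζ) * (J : ℝ) ≤ ((up ϖ J + j * up ζ J : ℕ) : ℝ) := by
        push_cast
        linarith
      have hwr2 : ((up ϖ J + j * up ζ J : ℕ) : ℝ) ≤ (ϖ + j * ζ) * J + M + 1 := by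
        push_cast
        linarith
      have hw1 : ⌊(ϖ + j * ζ) * (J : ℝ)⌋₊ ≤ up ϖ J + j * up ζ J := by
        have h5 : ((⌊(ϖ + j * ζ) * (J : ℝ)⌋₊ : ℕ) : ℝ) ≤ (ϖ + j * ζ) * J :=
          Nat.floor_le (by positivity)
        exact_mod_cast h5.trans hwr1
      have hw2 : up ϖ J + j * up ζ J ≤ J := by
        have h5 : (ϖ + (M + 1) * ζ) * (J : ℝ) ≤ 1 * J := mul_le_mul_of_nonneg_right hwin hJ0
        have h6 : (j : ℝ) * (ζ * J) ≤ M * (ζ * J) :=
          mul_le_mul_of_nonneg_right hjr (by positivity)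
        have : ((up ϖ J + j * up ζ J : ℕ) : ℝ) ≤ J := by
          nlinarith only [hwr2, h5, h6, hζJ]
        exact_mod_cast this
      obtain ⟨g, G, H, h7, h8, h9⟩ := h3 _ hw1 hw2
      refine ⟨g, G, H, h7, fun l hl => ?_⟩
      rcases Nat.eq_zero_or_pos l with h0 | h0
      · rw [h0, h8, hb0 j hj', abs_le]
        constructor
        · nlinarith only [hwr1, hxJ, hM0]
        · nlinarith only [hwr2, hxJ, hM0]
      · exact h9 l h0 hl)
  refine Bas.mono (max J₁ J₂) key ?_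
  rintro J hJ F A ⟨B, h1, h2, h3⟩
  rw [hΦ] at h3
  have h4 : ∀ j : ℕ, j < M + 1 → ∃ (g : ℕ → ℕ)
      (G : PtT F → ℕ → MvPolynomial (Option (Fin m)) ℝ)
      (H : LnT F → ℕ → MvPolynomial (Option (Fin m)) ℝ),
      ChOK F c n (fun _ => 1) (up ϖ J + j * up ζ J) (up ϖ J + j * up ζ J) ⌊x * J⌋₊ g B G H ∧
      ∀ l < n, |(g l : ℝ) - b j l * J| ≤ x * J := fun j hj => h3 j hj hJ
  choose! g G H h5 using h4
  exact ⟨B, g, G, H, h1, h2, fun j hj => (h5 j (by omega)).1, fun j hj => (h5 j (by omega)).2⟩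

end Pool.OWN98
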