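import Pool.Agent.H98.OWN.Cho
import Pool.Agent.H72.OWN.Rep2

/-!
# Charts of the records from closed velocity labels, with steep levels

As `Cho`: the exponent `e l` of the coefficients depends on the level. `cho_gridB`: a steep last
level.
-/

set_option autoImplicit false

namespace Pool.OWN98

open Finset MvPolynomial
open Pool.Agent.H49.Ent Pool.Agent.H32.Dense Pool.STK Pool.KA Pool.KSAT Pool.K2S Pool.PB Pool.GEN
open Pool.S6C
open Pool.OWN72
open Pool.MIC6 (dpt dpt_near)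
open Pool.JVE (DpI cI cI_pos lab_grd)
open Pool.STAT.CLO (up up_ge up_le)

variable {m J : ℕ}

/-- **Position labels from closed velocity labels**, all the coordinates of a chain. -/
theorem cho_famB {F : Fam m J} {A : F.Ω → Prop} {c : ℕ → Fin m} {W : ℕ} {e M P : ℕ → ℕ}
    {a : ℕ → PtT F → Fin m → ℝ} {cc : ℕ → PtT F → ℝ} (hW : W ≤ J) : ∀ n : ℕ,
    (∀ l, 1 ≤ l → l < n → ClA F A ((range l).image c) (c l) W (e l) (M l) (a l) (cc l)) →
    (∀ l, 1 ≤ l → l < n → W + M l + e l + m + 3 ≤ J) →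
    (∀ l, 1 ≤ l → l < n → P l + m + 3 ≤ W + M l) →
    ∃ B : F.Ω → Prop, Sub B A ∧ Pe F.p A ≤ cI m ^ n * Pe F.p B ∧
      ∀ l, 1 ≤ l → l < n → ∀ ρ, Lb F ((range l).image c) (c l) 1 (e l + 1) J W ρ (P l) B := by
  intro n
  induction n with
  | zero =>
    intro _ _ _
    exact ⟨A, fun _ h => h, by rw [pow_zero, one_mul], fun l _ hl => absurd hl (Nat.not_lt_zero l)⟩
  | succ n ih =>
    intro h1 h2 h3
    obtain ⟨B, hB, hP, hL⟩ := ih (fun l a b => h1 l a (by omega)) (fun l a b => h2 l a (by omega))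
      (fun l a b => h3 l a (by omega))
    rcases Nat.eq_zero_or_pos n with hn | hn
    · refine ⟨B, hB, ?_, fun l a b => absurd b (by omega)⟩
      refine hP.trans (mul_le_mul_of_nonneg_right ?_ (Pe_nonneg F.isLaw B))
      exact pow_le_pow_right₀ (cI_one m) (Nat.le_succ n)
    · obtain ⟨h1', h1a, h1c⟩ := (h1 n hn (Nat.lt_succ_self n)).sub hB
      choose! fa hfa using h1a
      obtain ⟨B', hB', hP', hL'⟩ := lab_grd (F := F) (A := B) (I := (range n).image c) (v := c n)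
        (av := a n) (cv := cc n) (th := fun s k => fa k s) (W := W) (M := M n) (e := e n) (P := P n)
        hW h1' (fun ω hω k hk => by
          rw [← hfa k hk ω hω, sub_self, abs_zero]
          positivity) (h2 n hn (Nat.lt_succ_self n)) (h3 n hn (Nat.lt_succ_self n))
      refine ⟨B', fun ω hω => hB ω (hB' ω hω), ?_, fun l a b ρ => ?_⟩
      · calc Pe F.p A ≤ cI m ^ n * Pe F.p B := hP
          _ ≤ cI m ^ n * (cI m * Pe F.p B') :=
            mul_le_mul_of_nonneg_left hP' (pow_nonneg (cI_pos m).le n)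
          _ = cI m ^ (n + 1) * Pe F.p B' := by ring
      · rcases Nat.lt_or_ge l n with hl | hl
        · obtain ⟨V, z, z', G, h⟩ := hL l a hl ρ
          exact ⟨V, z, z', G, h.sub hB'⟩
        · have : l = n := by omega
          rw [this]
          exact hL' ρ

/-- **The chart of a chain** at a finer window, from affine closed labels. -/
theorem cho_chB {F : Fam m J} {B : F.Ω → Prop} {c : ℕ → Fin m} {n W w' : ℕ} {e P : ℕ → ℕ}
    (hL : ∀ l, 1 ≤ l → l < n → Lb F ((range l).image c) (c l) 1 (e l) J W 0 (P l) B)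
    (hW : W ≤ w') (hJ : w' ≤ J) :
    ∃ (G : PtT F → ℕ → MvPolynomial (Option (Fin m)) ℝ)
      (H : LnT F → ℕ → MvPolynomial (Option (Fin m)) ℝ),
      ∀ n' ≤ n, ∀ e' : ℕ, (∀ l, 1 ≤ l → l < n' → e l ≤ e') →
      ChOK F c n' (fun _ => 1) w' w' e' (fun l => if l = 0 then w' else P l) B G H := by
  classical
  have h' : ∀ l, 1 ≤ l → l < n → Lb F ((range l).image c) (c l) 1 (e l) J w' 0 (P l) B :=
    fun l a b => (hL l a b).win hW hJ
  choose V z z' G hG using h'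
  have hdep : ∀ i (hi : 1 ≤ i) (hi' : i < n) v, DepC c i (G i hi hi' v) := by
    intro i hi hi' v b b' hn hb
    refine (hG i hi hi').dep _ b b' hn fun k hk => ?_
    obtain ⟨l, hl, rfl⟩ := mem_image.1 hk
    exact hb l (mem_range.1 hl)
  refine ⟨fun y i => if hi : 1 ≤ i ∧ i < n then G i hi.1 hi.2 (z i hi.1 hi.2 y) else
      if i = 0 then C (dpt y (some (c 0))) else 0,
    fun s i => if hi : 1 ≤ i ∧ i < n then G i hi.1 hi.2 (z' i hi.1 hi.2 s) else
      if i = 0 then C (s.1.1 (c 0) + (s.2.2 : ℝ) / 2 ^ w' * s.1.2 (c 0)) else 0,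
    fun n' hn' e' he' => ⟨
    fun y i => ?_, fun s i => ?_, fun y i => ?_, fun s i => ?_, fun ω hω i hi' => ?_,
    fun ω hω i hi' b _ => ?_, fun ω hω i hi' b hb l hl => ?_⟩⟩
  · split_ifs with hi
    · exact (hG i hi.1 hi.2).deg _
    · rw [totalDegree_C]
      exact Nat.zero_le _
    · rw [totalDegree_zero]
      exact Nat.zero_le _
  · split_ifs with hi
    · exact (hG i hi.1 hi.2).deg _
    · rw [totalDegree_C]
      exact Nat.zero_le _
    · rw [totalDegree_zero]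
      exact Nat.zero_le _
  · split_ifs with hi
    · exact hdep i hi.1 hi.2 _
    · intro b b' _ _
      rw [eval_C, eval_C]
    · intro b b' _ _
      rw [map_zero, map_zero]
  · split_ifs with hi
    · exact hdep i hi.1 hi.2 _
    · intro b b' _ _
      rw [eval_C, eval_C]
    · intro b b' _ _
      rw [map_zero, map_zero]
  · have hi : i < n := by omega
    rcases Nat.eq_zero_or_pos i with h0 | h0
    · subst h0
      rw [dif_neg (by omega), if_pos rfl, if_pos rfl, eval_C]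
      have h1 := dpt_near F ω (some (c 0))
      rw [abs_sub_comm] at h1
      exact h1.trans (inv_mono hJ)
    · rw [dif_pos ⟨h0, hi⟩, if_neg (by omega), (hG i h0 hi).cls ω hω]
      exact (hG i h0 hi).pos ω hω
  · have hi : i < n := by omega
    rcases Nat.eq_zero_or_pos i with h0 | h0
    · subst h0
      rw [dif_neg (by omega), if_pos rfl, dif_neg (by omega), if_pos rfl, if_pos rfl, eval_C,
        eval_C]
      have h1 := dpt_near F ω (some (c 0))
      have h2 := rt_le F hJ ω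
      have h3 := (Pool.PB.Trl.rt_mem F w' ω).1
      have h4 := Pool.PB.Trl.t_rt F hJ ω
      have h5 := F.dir ω (c 0)
      have e1 : bt F ω (some (c 0)) = F.u ω (c 0) + F.t ω * F.d ω (c 0) := rfl
      have e2 : dpt (ptr F J ω) (some (c 0)) - ((slam F w' ω).1.1 (c 0) +
          ((slam F w' ω).2.2 : ℝ) / 2 ^ w' * (slam F w' ω).1.2 (c 0)) =
          (dpt (ptr F J ω) (some (c 0)) - bt F ω (some (c 0))) +
            Pool.PB.Trl.rt F w' ω / 2 ^ w' * F.d ω (c 0) := by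
        rw [e1, h4]
        show _ - (F.u ω (c 0) + _ * F.d ω (c 0)) = _
        ring
      rw [e2]
      have h6 : |Pool.PB.Trl.rt F w' ω / 2 ^ w' * F.d ω (c 0)| ≤ 1 / 2 ^ w' - 1 / 2 ^ J := by
        rw [abs_mul, abs_of_nonneg (by positivity)]
        have := mul_le_mul_of_nonneg_left h5
          (show 0 ≤ Pool.PB.Trl.rt F w' ω / 2 ^ w' by positivity)
        linarith
      refine (abs_add_le _ _).trans ?_
      linarith
    · rw [dif_pos ⟨h0, hi⟩, dif_pos ⟨h0, hi⟩, (hG i h0 hi).cls ω hω, sub_self, abs_zero]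
      positivity
  · have hi : i < n := by omega
    have h0 : 1 ≤ i := by omega
    rw [dif_pos ⟨h0, hi⟩, (hG i h0 hi).cls ω hω,
      pd_const ((hG i h0 hi).deg _) (some (c l)) b (bt F ω)]
    refine ((hG i h0 hi).lip ω hω (bt F ω) (fun o => ?_) _).trans
      (pow_le_pow_right₀ (by norm_num) ((he' i h0 hi').trans (Nat.le_add_right _ _)))
    rw [sub_self, abs_zero]
    positivity

/-- **Charts of the records**, for a class: affine closed labels of the velocities, with the numbers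
`N l`, give charts with the sides `N l`, at all finer windows. -/
theorem cho_ofB {S : PCl m} {c : ℕ → Fin m} {n : ℕ} {w δ : ℝ} {N Ev : ℕ → ℝ} (hw0 : 0 ≤ w)
    (hδ : 0 < δ)
    (hA : ∀ l, 1 ≤ l → l < n → HasB S ((range l).image c) (c l) w (N l) (Ev l))
    (hE0 : ∀ l, 1 ≤ l → l < n → 0 ≤ Ev l) (hwE : ∀ l, 1 ≤ l → l < n → w + Ev l + δ ≤ 1)
    (hNδ : ∀ l, 1 ≤ l → l < n → δ ≤ N l) (hNw : ∀ l, 1 ≤ l → l < n → w ≤ N l)
    (hw1 : w < 1) (hN1 : ∀ l, 1 ≤ l → l < n → N l + Ev l ≤ 1) {x : ℝ} (hx : 0 < x) :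
    Bas S fun J F A => ∃ B : F.Ω → Prop, Sub B A ∧ Pe F.p A ≤ cI m ^ n * Pe F.p B ∧
      ∀ w' : ℕ, ⌊w * J⌋₊ ≤ w' → w' ≤ J → ∃ (g : ℕ → ℕ)
        (G : PtT F → ℕ → MvPolynomial (Option (Fin m)) ℝ)
        (H : LnT F → ℕ → MvPolynomial (Option (Fin m)) ℝ),
        (∀ n' ≤ n, ∀ E' : ℝ, 0 ≤ E' → (∀ l, 1 ≤ l → l < n' → Ev l ≤ E') →
          ChOK F c n' (fun _ => 1) w' w' ⌊(E' + x) * J⌋₊ g B G H) ∧ g 0 = w' ∧
        ∀ l, 1 ≤ l → l < n → |(g l : ℝ) - N l * J| ≤ x * J := by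
  obtain ⟨y, hy⟩ : ∃ y, y = min (x / 4) (min ((1 - w) / 4) (δ / 4)) := ⟨_, rfl⟩
  have hy0 : 0 < y := by
    rw [hy]
    exact lt_min (by linarith) (lt_min (by linarith) (by linarith))
  have hyx : 4 * y ≤ x := by
    have : y ≤ x / 4 := by rw [hy]; exact min_le_left _ _
    linarith
  have hyw : 4 * y ≤ 1 - w := by
    have : y ≤ (1 - w) / 4 := by rw [hy]; exact (min_le_right _ _).trans (min_le_left _ _)
    linarith
  have hyδ : 4 * y ≤ δ := by
    have : y ≤ δ / 4 := by rw [hy]; exact (min_le_right _ _).trans (min_le_right _ _)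
    linarith
  obtain ⟨J₁, hJ₁⟩ := exists_nat_ge ((2 * (m : ℝ) + 10) / y)
  have hb : Bas S fun J F A => ∀ l < n, 1 ≤ l → ∃ (a : PtT F → Fin m → ℝ) (cc : PtT F → ℝ),
      ClA F A ((range l).image c) (c l) ⌊w * J⌋₊ ⌊(Ev l + y) * J⌋₊ ⌊(N l - w - y) * J⌋₊ a cc := by
    refine Bas.all n fun l hl => ?_
    rcases Nat.eq_zero_or_pos l with h0 | h0
    · exact ⟨1, one_pos, 0, fun _ _ _ _ _ h => absurd h (by omega)⟩
    · obtain ⟨τ, hτ, J₂, h⟩ := hA l h0 hl y hy0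
      exact ⟨τ, hτ, J₂, fun J hJ F A hA _ => h J hJ F A hA⟩
  refine Bas.mono J₁ hb ?_
  intro J hJ F A h
  have hJr : (J₁ : ℝ) ≤ J := by exact_mod_cast hJ
  have hJ0 : (0 : ℝ) ≤ J := Nat.cast_nonneg J
  have hm0 : (0 : ℝ) ≤ m := Nat.cast_nonneg m
  have hyJ : 2 * (m : ℝ) + 10 ≤ y * J := by
    have h1 := hJ₁.trans hJr
    rw [div_le_iff₀ hy0] at h1
    linarith
  choose! a cc hcl using h
  obtain ⟨W, hW⟩ : ∃ W, W = ⌊w * (J : ℝ)⌋₊ := ⟨_, rfl⟩
  obtain ⟨e, he⟩ : ∃ e : ℕ → ℕ, e = fun l => ⌊(Ev l + y) * (J : ℝ)⌋₊ := ⟨_, rfl⟩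
  have hWle : (W : ℝ) ≤ w * J := by rw [hW]; exact Nat.floor_le (by positivity)
  have hWge : w * (J : ℝ) - 1 < W := by rw [hW]; exact Nat.sub_one_lt_floor _
  have hele : ∀ l, 1 ≤ l → l < n → (e l : ℝ) ≤ (Ev l + y) * J := fun l h1 h2 => by
    rw [he]
    exact Nat.floor_le (mul_nonneg (by linarith [hE0 l h1 h2]) hJ0)
  have hw4 : 4 * (y * J) ≤ (1 - w) * J := by
    have := mul_le_mul_of_nonneg_right hyw hJ0
    linarith
  have hx4 : 4 * (y * J) ≤ x * J := by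
    have := mul_le_mul_of_nonneg_right hyx hJ0
    linarith
  have hδ4 : 4 * (y * J) ≤ δ * J := by
    have := mul_le_mul_of_nonneg_right hyδ hJ0
    linarith
  have hWeJ : ∀ l, 1 ≤ l → l < n → W + e l + m + 3 ≤ J := by
    intro l h1 h2
    have : ((W + e l + m + 3 : ℕ) : ℝ) ≤ J := by
      push_cast
      have h3 := hele l h1 h2
      have h4 := mul_le_mul_of_nonneg_right (hwE l h1 h2) hJ0
      linarith
    exact_mod_cast this
  have hWJ : W ≤ J := by
    have : (W : ℝ) ≤ J := by linarith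
    exact_mod_cast this
  have heJ : ∀ l, 1 ≤ l → l < n → ∀ E' : ℝ, Ev l ≤ E' → e l + 1 ≤ ⌊(E' + x) * (J : ℝ)⌋₊ := by
    intro l h1 h3 E' hE'
    have h2 : (E' + x) * (J : ℝ) - 1 < ⌊(E' + x) * (J : ℝ)⌋₊ := Nat.sub_one_lt_floor _
    have h4 := mul_le_mul_of_nonneg_right hE' hJ0
    have h5 := hele l h1 h3
    have : ((e l + 1 : ℕ) : ℝ) ≤ (⌊(E' + x) * (J : ℝ)⌋₊ : ℕ) := by
      push_cast
      linarith
    exact_mod_cast this
  obtain ⟨M, hM⟩ : ∃ M : ℕ → ℕ, M = fun l => min ⌊(N l - w - y) * (J : ℝ)⌋₊ (J - W - e l - m - 3) :=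
    ⟨_, rfl⟩
  have hMle : ∀ l, M l ≤ J - W - e l - m - 3 := fun l => by rw [hM]; exact min_le_right _ _
  have hMge : ∀ l, 1 ≤ l → l < n → (N l - w - y) * J - y * J - m - 4 ≤ (M l : ℝ) := by
    intro l h1 h2
    rw [hM]
    show _ ≤ ((min _ _ : ℕ) : ℝ)
    rw [Nat.cast_min]
    refine le_min ?_ ?_
    · have h3 : (N l - w - y) * (J : ℝ) - 1 < ⌊(N l - w - y) * (J : ℝ)⌋₊ := Nat.sub_one_lt_floor _
      linarith
    · have h6 := hWeJ l h1 h2
      have h7 := hele l h1 h2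
      have h3 : ((J - W - e l - m - 3 : ℕ) : ℝ) = J - W - e l - m - 3 := by
        rw [Nat.cast_sub (by omega), Nat.cast_sub (by omega), Nat.cast_sub (by omega),
          Nat.cast_sub (by omega)]
        push_cast
        ring
      rw [h3]
      have h4 := mul_le_mul_of_nonneg_right (hN1 l h1 h2) hJ0
      have e1 : (N l - w - y) * (J : ℝ) = N l * J - w * J - y * J := by ring
      linarith
  have hMup : ∀ l, 1 ≤ l → l < n → (M l : ℝ) ≤ (N l - w) * J := by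
    intro l h1 h2
    have h3 : (M l : ℝ) ≤ (⌊(N l - w - y) * (J : ℝ)⌋₊ : ℕ) := by
      rw [hM]
      exact_mod_cast min_le_left _ _
    have h4 : (⌊(N l - w - y) * (J : ℝ)⌋₊ : ℕ) ≤ ⌊(N l - w) * (J : ℝ)⌋₊ :=
      Nat.floor_le_floor (mul_le_mul_of_nonneg_right (by linarith) hJ0)
    have h5 : ((⌊(N l - w) * (J : ℝ)⌋₊ : ℕ) : ℝ) ≤ (N l - w) * J :=
      Nat.floor_le (mul_nonneg (by linarith [hNw l h1 h2]) hJ0)
    have h4' : ((⌊(N l - w - y) * (J : ℝ)⌋₊ : ℕ) : ℝ) ≤ (⌊(N l - w) * (J : ℝ)⌋₊ : ℕ) := by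
      exact_mod_cast h4
    linarith
  have hbig : ∀ l, 1 ≤ l → l < n → m + 3 ≤ W + M l := by
    intro l h1 h2
    have h3 := hMge l h1 h2
    have h4 := mul_le_mul_of_nonneg_right (hNδ l h1 h2) hJ0
    have e1 : (N l - w - y) * (J : ℝ) = N l * J - w * J - y * J := by ring
    have : ((m + 3 : ℕ) : ℝ) ≤ ((W + M l : ℕ) : ℝ) := by
      push_cast
      linarith
    exact_mod_cast this
  obtain ⟨B, hB, hP, hL⟩ := cho_famB (F := F) (A := A) (c := c) (W := W) (e := e) (M := M)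
    (P := fun l => W + M l - (m + 3)) (a := a) (cc := cc) hWJ n
    (fun l h1 h2 => by
      have h3 := hcl l h2 h1
      rw [← hW] at h3
      have h4 : ⌊(Ev l + y) * (J : ℝ)⌋₊ = e l := by rw [he]
      rw [h4] at h3
      refine h3.mono ?_
      rw [hM]
      exact min_le_left _ _)
    (fun l h1 h2 => by
      have := hMle l
      have := hWeJ l h1 h2
      omega)
    (fun l h1 h2 => by
      have := hbig l h1 h2
      show W + M l - (m + 3) + m + 3 ≤ W + M l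
      omega)
  refine ⟨B, hB, hP, fun w' hw' hw'J => ?_⟩
  obtain ⟨G, H, hG⟩ := cho_chB (F := F) (B := B) (c := c) (n := n) (W := W) (e := fun l => e l + 1)
    (w' := w')
    (P := fun l => W + M l - (m + 3)) (fun l h1 h2 => hL l h1 h2 0) (by rw [hW]; exact hw') hw'J
  refine ⟨_, G, H, fun n' hn' E' hE' h => hG n' hn' _ fun l h1 h2 =>
    heJ l h1 (by omega) E' (h l h1 h2), if_pos rfl, fun l h1 h2 => ?_⟩
  rw [if_neg (by omega)]
  have h3 := hbig l h1 h2
  have h4 := hMge l h1 h2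
  have h5 := hMup l h1 h2
  have e1 : (N l - w - y) * (J : ℝ) = N l * J - w * J - y * J := by ring
  have e2 : (N l - w) * (J : ℝ) = N l * J - w * J := by ring
  rw [Nat.cast_sub h3]
  push_cast
  rw [abs_le]
  constructor
  · linarith
  · linarith

/-- **Charts of the records, at all the windows of a grid**, with a steep last level. -/
theorem cho_gridB {S : PCl m} {c : ℕ → Fin m} {n M : ℕ} {ϖ ζ δ E : ℝ} {b : ℕ → ℕ → ℝ} (hn : 2 ≤ n)
    (hϖ : 0 ≤ ϖ) (hζ : 0 < ζ) (hwin : ϖ + (M + 1) * ζ ≤ 1) (hδ : 0 < δ) (hE : 0 ≤ E)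
    (hA : ∀ j ≤ M, ∀ l, 1 ≤ l → l + 1 < n →
      HasA S ((range l).image c) (c l) (ϖ + j * ζ) (b j l))
    (hB : ∀ j ≤ M, HasB S ((range (n - 1)).image c) (c (n - 1)) (ϖ + j * ζ) (b j (n - 1)) E)
    (hb0 : ∀ j ≤ M, b j 0 = ϖ + j * ζ)
    (hbδ : ∀ j ≤ M, ∀ l, 1 ≤ l → l < n → δ ≤ b j l)
    (hbw : ∀ j ≤ M, ∀ l, 1 ≤ l → l < n → ϖ + j * ζ ≤ b j l)
    (hb1 : ∀ j ≤ M, ∀ l, 1 ≤ l → l < n → b j l ≤ 1)
    (hbE : ∀ j ≤ M, b j (n - 1) + E + δ ≤ 1) {x : ℝ} (hx : 0 < x) :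
    Bas S fun J F A => ∃ (B : F.Ω → Prop) (g' : ℕ → ℕ → ℕ)
      (G' : ℕ → PtT F → ℕ → MvPolynomial (Option (Fin m)) ℝ)
      (H' : ℕ → LnT F → ℕ → MvPolynomial (Option (Fin m)) ℝ),
      Sub B A ∧ Pe F.p A ≤ (cI m ^ n) ^ (M + 1) * Pe F.p B ∧
      (∀ j ≤ M, ChOK F c n (fun _ => 1) (up ϖ J + j * up ζ J) (up ϖ J + j * up ζ J)
        ⌊(E + x) * J⌋₊ (g' j) B (G' j) (H' j)) ∧
      (∀ j ≤ M, ChOK F c (n - 1) (fun _ => 1) (up ϖ J + j * up ζ J) (up ϖ J + j * up ζ J)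
        ⌊x * J⌋₊ (g' j) B (G' j) (H' j)) ∧
      ∀ j ≤ M, ∀ l < n, |(g' j l : ℝ) - b j l * J| ≤ x * J := by
  have hM0 : (0 : ℝ) ≤ M := Nat.cast_nonneg M
  have hlt : ∀ j ≤ M, ϖ + j * ζ + ζ ≤ 1 := by
    intro j hj
    have : (j : ℝ) ≤ M := by exact_mod_cast hj
    nlinarith
  obtain ⟨Ev, hEv⟩ : ∃ Ev : ℕ → ℝ, Ev = fun l => if l + 1 < n then 0 else E := ⟨_, rfl⟩
  have hEv0 : ∀ l, 0 ≤ Ev l := fun l => by
    rw [hEv]
    dsimp only
    split_ifs
    · exact le_rfl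
    · exact hE
  have hEvE : ∀ l, Ev l ≤ E := fun l => by
    rw [hEv]
    dsimp only
    split_ifs
    · exact hE
    · exact le_rfl
  obtain ⟨δ', hδ'⟩ : ∃ δ', δ' = min δ ζ := ⟨_, rfl⟩
  have hδ'0 : 0 < δ' := by rw [hδ']; exact lt_min hδ hζ
  have hδ'1 : δ' ≤ δ := by rw [hδ']; exact min_le_left _ _
  have hδ'2 : δ' ≤ ζ := by rw [hδ']; exact min_le_right _ _
  have hAB : ∀ j ≤ M, ∀ l, 1 ≤ l → l < n →
      HasB S ((range l).image c) (c l) (ϖ + j * ζ) (b j l) (Ev l) := by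
    intro j hj l h1 h2
    rcases Nat.lt_or_ge (l + 1) n with h3 | h3
    · have : Ev l = 0 := by rw [hEv]; exact if_pos h3
      rw [this]
      exact (hA j hj l h1 h3).hasB
    · have h4 : l = n - 1 := by omega
      have : Ev l = E := by rw [hEv]; exact if_neg (by omega)
      rw [this, h4]
      exact hB j hj
  have hN1 : ∀ j ≤ M, ∀ l, 1 ≤ l → l < n → b j l + Ev l ≤ 1 := by
    intro j hj l h1 h2
    rcases Nat.lt_or_ge (l + 1) n with h3 | h3
    · have : Ev l = 0 := by rw [hEv]; exact if_pos h3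
      rw [this, add_zero]
      exact hb1 j hj l h1 h2
    · have h4 : l = n - 1 := by omega
      have : Ev l = E := by rw [hEv]; exact if_neg (by omega)
      rw [this, h4]
      linarith [hbE j hj]
  have hwE : ∀ j ≤ M, ∀ l, 1 ≤ l → l < n → ϖ + j * ζ + Ev l + δ' ≤ 1 := by
    intro j hj l h1 h2
    rcases Nat.lt_or_ge (l + 1) n with h3 | h3
    · have : Ev l = 0 := by rw [hEv]; exact if_pos h3
      rw [this, add_zero]
      linarith [hlt j hj]
    · have h4 : l = n - 1 := by omega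
      have : Ev l = E := by rw [hEv]; exact if_neg (by omega)
      rw [this]
      have h5 := hbw j hj l h1 h2
      rw [h4] at h5
      linarith [hbE j hj]
  obtain ⟨J₁, hJ₁⟩ := exists_nat_ge (((M : ℝ) + 2) / ζ)
  obtain ⟨J₂, hJ₂⟩ := exists_nat_ge (((M : ℝ) + 2) / x)
  obtain ⟨Φ, hΦ⟩ : ∃ Φ : ℕ → Stat m, Φ = fun j J F B => max J₁ J₂ ≤ J → ∃ (g : ℕ → ℕ)
      (G : PtT F → ℕ → MvPolynomial (Option (Fin m)) ℝ)
      (H : LnT F → ℕ → MvPolynomial (Option (Fin m)) ℝ),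
      ChOK F c n (fun _ => 1) (up ϖ J + j * up ζ J) (up ϖ J + j * up ζ J) ⌊(E + x) * J⌋₊
        g B G H ∧
      ChOK F c (n - 1) (fun _ => 1) (up ϖ J + j * up ζ J) (up ϖ J + j * up ζ J) ⌊x * J⌋₊
        g B G H ∧
      ∀ l < n, |(g l : ℝ) - b j l * J| ≤ x * J := ⟨_, rfl⟩
  have key := seq_ev (S := S) (C := cI m ^ n) (one_le_pow₀ (cI_one m)) (Φ := Φ)
    (fun i J F A B hB h => by
      rw [hΦ] at h ⊢
      intro hJ
      obtain ⟨g, G, H, h1, h2, h3⟩ := h hJ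
      exact ⟨g, G, H, h1.sub hB, h2.sub hB, h3⟩) (M + 1) (fun j hj => by
      have hj' : j ≤ M := by omega
      have hjr : (j : ℝ) ≤ M := by exact_mod_cast hj'
      refine Bas.mono 0 (cho_ofB (S := S) (c := c) (n := n) (w := ϖ + j * ζ) (δ := δ')
        (N := b j) (Ev := Ev)
        (by positivity) hδ'0 (hAB j hj') (fun l _ _ => hEv0 l) (hwE j hj')
        (fun l h1 h2 => hδ'1.trans (hbδ j hj' l h1 h2)) (hbw j hj')
        (by linarith [hlt j hj']) (hN1 j hj') hx) ?_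
      rintro J - F A ⟨B, h1, h2, h3⟩
      refine ⟨B, h1, h2, ?_⟩
      rw [hΦ]
      intro hJ
      have hJ0 : (0 : ℝ) ≤ J := Nat.cast_nonneg J
      have j1 : (J₁ : ℝ) ≤ J := by exact_mod_cast (le_max_left _ _).trans hJ
      have j2 : (J₂ : ℝ) ≤ J := by exact_mod_cast (le_max_right _ _).trans hJ
      have hζJ : (M : ℝ) + 2 ≤ J * ζ := by
        have := hJ₁.trans j1
        rwa [div_le_iff₀ hζ] at this
      have hxJ : (M : ℝ) + 2 ≤ J * x := by
        have := hJ₂.trans j2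
        rwa [div_le_iff₀ hx] at this
      have u1 := up_ge ϖ J
      have u2 := up_le hϖ J
      have u3 := up_ge ζ J
      have u4 := up_le hζ.le J
      have k1 : (j : ℝ) * (ζ * J) ≤ j * up ζ J := mul_le_mul_of_nonneg_left u3 (Nat.cast_nonneg j)
      have k2 : (j : ℝ) * up ζ J ≤ j * (ζ * J + 1) :=
        mul_le_mul_of_nonneg_left u4 (Nat.cast_nonneg j)
      have hwr1 : (ϖ + j * ζ) * (J : ℝ) ≤ ((up ϖ J + j * up ζ J : ℕ) : ℝ) := by
        push_cast
        linarith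
      have hwr2 : ((up ϖ J + j * up ζ J : ℕ) : ℝ) ≤ (ϖ + j * ζ) * J + M + 1 := by
        push_cast
        linarith
      have hw1 : ⌊(ϖ + j * ζ) * (J : ℝ)⌋₊ ≤ up ϖ J + j * up ζ J := by
        have h5 : ((⌊(ϖ + j * ζ) * (J : ℝ)⌋₊ : ℕ) : ℝ) ≤ (ϖ + j * ζ) * J :=
          Nat.floor_le (by positivity)
        exact_mod_cast h5.trans hwr1
      have hw2 : up ϖ J + j * up ζ J ≤ J := by
        have h5 : (ϖ + (M + 1) * ζ) * (J : ℝ) ≤ 1 * J := mul_le_mul_of_nonneg_right hwin hJ0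
        have h6 : (j : ℝ) * (ζ * J) ≤ M * (ζ * J) :=
          mul_le_mul_of_nonneg_right hjr (by positivity)
        have : ((up ϖ J + j * up ζ J : ℕ) : ℝ) ≤ J := by
          nlinarith only [hwr2, h5, h6, hζJ]
        exact_mod_cast this
      obtain ⟨g, G, H, h7, h8, h9⟩ := h3 _ hw1 hw2
      have h10 := h7 (n - 1) (by omega) 0 le_rfl (fun l _ h2 => by
        rw [hEv]
        dsimp only
        rw [if_pos (by omega)])
      rw [zero_add] at h10
      refine ⟨g, G, H, h7 n le_rfl E hE (fun l _ _ => hEvE l), h10, fun l hl => ?_⟩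
      rcases Nat.eq_zero_or_pos l with h0 | h0
      · rw [h0, h8, hb0 j hj', abs_le]
        constructor
        · nlinarith only [hwr1, hxJ, hM0]
        · nlinarith only [hwr2, hxJ, hM0]
      · exact h9 l h0 hl)
  refine Bas.mono (max J₁ J₂) key ?_
  rintro J hJ F A ⟨B, h1, h2, h3⟩
  rw [hΦ] at h3
  have h4 : ∀ j : ℕ, j < M + 1 → ∃ (g : ℕ → ℕ)
      (G : PtT F → ℕ → MvPolynomial (Option (Fin m)) ℝ)
      (H : LnT F → ℕ → MvPolynomial (Option (Fin m)) ℝ),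
      ChOK F c n (fun _ => 1) (up ϖ J + j * up ζ J) (up ϖ J + j * up ζ J) ⌊(E + x) * J⌋₊
        g B G H ∧
      ChOK F c (n - 1) (fun _ => 1) (up ϖ J + j * up ζ J) (up ϖ J + j * up ζ J) ⌊x * J⌋₊
        g B G H ∧
      ∀ l < n, |(g l : ℝ) - b j l * J| ≤ x * J := fun j hj => h3 j hj hJ
  choose! g G H h5 using h4
  exact ⟨B, g, G, H, h1, h2, fun j hj => (h5 j (by omega)).1,
    fun j hj => (h5 j (by omega)).2.1, fun j hj => (h5 j (by omega)).2.2⟩

end Pool.OWN98
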